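import Mathlib

/-! The tree compression of a finite set `A ⊂ G ^ n` into a down-set of `ℕ ^ n`. -/

set_option autoImplicit false

namespace Pool.Agent.Y559.DS

open Finset
open scoped Pointwise

variable {G : Type*} [DecidableEq G]

/-- the slice of `A` above the first coordinate `z` -/
def fib {n : ℕ} (A : Finset (Fin (n + 1) → G)) (z : G) : Finset (Fin n → G) :=
  (A.filter (fun y => y 0 = z)).image Fin.tail

lemma mem_fib {n : ℕ} {A : Finset (Fin (n + 1) → G)} {z : G} {y : Fin n → G} :
    y ∈ fib A z ↔ (Fin.cons z y : Fin (n + 1) → G) ∈ A := by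
  unfold fib
  rw [mem_image]
  constructor
  · rintro ⟨w, hw, rfl⟩
    rw [mem_filter] at hw
    rw [← hw.2, Fin.cons_self_tail]
    exact hw.1
  · intro h
    exact ⟨_, mem_filter.2 ⟨h, by simp⟩, by simp⟩

lemma card_fib {n : ℕ} (A : Finset (Fin (n + 1) → G)) (z : G) :
    (fib A z).card = (A.filter (fun y => y 0 = z)).card := by
  unfold fib
  apply card_image_of_injOn
  intro x hx y hy h
  simp only [coe_filter, Set.mem_ofPred_eq] at hx hy
  rw [← Fin.cons_self_tail x, ← Fin.cons_self_tail y, hx.2, hy.2, h]

lemma fib_mono {n : ℕ} {A B : Finset (Fin (n + 1) → G)} (h : A ⊆ B) (z : G) :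
    fib A z ⊆ fib B z := by
  intro y hy
  rw [mem_fib] at hy ⊢
  exact h hy

/-- the first coordinates of the points of `A` -/
def fst {n : ℕ} (A : Finset (Fin (n + 1) → G)) : Finset G := A.image (fun y => y 0)

lemma fst_mono {n : ℕ} {A B : Finset (Fin (n + 1) → G)} (h : A ⊆ B) : fst A ⊆ fst B :=
  image_subset_image h

/-- the compression -/
def TF : (n : ℕ) → Finset (Fin n → G) → Finset (Fin n → ℕ)
  | 0, A => if A.Nonempty then {0} else ∅
  | n + 1, A =>
    ((fst A).biUnion (fun z => TF n (fib A z))).biUnion (fun w =>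
      (range ((fst A).filter (fun z => w ∈ TF n (fib A z))).card).image
        (fun v => (Fin.cons v w : Fin (n + 1) → ℕ)))

lemma mem_TF_zero {A : Finset (Fin 0 → G)} {x : Fin 0 → ℕ} : x ∈ TF 0 A ↔ A.Nonempty := by
  have hx : x = 0 := Subsingleton.elim _ _
  subst hx
  unfold TF
  split_ifs with h
  · simp [h]
  · simp [h]

lemma mem_TF_succ {n : ℕ} {A : Finset (Fin (n + 1) → G)} {x : Fin (n + 1) → ℕ} :
    x ∈ TF (n + 1) A ↔
      x 0 < ((fst A).filter (fun z => Fin.tail x ∈ TF n (fib A z))).card := by
  rw [TF]
  simp only [mem_biUnion, mem_image, mem_range]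
  constructor
  · rintro ⟨w, -, v, hv, rfl⟩
    simpa only [Fin.cons_zero, Fin.tail_cons] using hv
  · intro h
    have h0 : 0 < ((fst A).filter (fun z => Fin.tail x ∈ TF n (fib A z))).card := by omega
    obtain ⟨z, hz⟩ := card_pos.1 h0
    rw [mem_filter] at hz
    exact ⟨Fin.tail x, ⟨z, hz.1, hz.2⟩, x 0, h, Fin.cons_self_tail x⟩

lemma card_TF : ∀ (n : ℕ) (A : Finset (Fin n → G)), (TF n A).card = A.card := by
  intro n
  induction n with
  | zero =>
    intro A
    unfold TF
    split_ifs with h
    · rw [card_singleton]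
      have h1 : A.card ≤ 1 := card_le_one_of_subsingleton A
      have h2 := h.card_pos
      omega
    · rw [not_nonempty_iff_eq_empty] at h
      simp [h]
  | succ n ih =>
    intro A
    rw [TF, card_biUnion]
    · have e1 : ∀ w : Fin n → ℕ, ((range ((fst A).filter (fun z => w ∈ TF n (fib A z))).card).image
        (fun v => (Fin.cons v w : Fin (n + 1) → ℕ))).card =
          ((fst A).filter (fun z => w ∈ TF n (fib A z))).card := by
        intro w
        rw [card_image_of_injective, card_range]
        intro a b hab
        have := congrFun hab 0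
        simpa using this
      rw [sum_congr rfl (fun w _ => e1 w)]
      have e2 := sum_card_bipartiteAbove_eq_sum_card_bipartiteBelow
        (s := (fst A).biUnion (fun z => TF n (fib A z))) (t := fst A)
        (fun w z => w ∈ TF n (fib A z))
      unfold bipartiteAbove bipartiteBelow at e2
      rw [e2]
      have e3 : ∀ z ∈ fst A, (((fst A).biUnion (fun z => TF n (fib A z))).filter
          (fun w => w ∈ TF n (fib A z))).card = (A.filter (fun y => y 0 = z)).card := by
        intro z hz
        rw [← card_fib, ← ih]
        congr 1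
        ext w
        rw [mem_filter, mem_biUnion]
        exact ⟨fun h => h.2, fun h => ⟨⟨z, hz, h⟩, h⟩⟩
      rw [sum_congr rfl e3]
      exact (card_eq_sum_card_image (fun y : Fin (n + 1) → G => y 0) A).symm
    · intro w _ w' _ hne
      rw [Function.onFun, disjoint_left]
      intro x hx hx'
      rw [mem_image] at hx hx'
      obtain ⟨v, -, rfl⟩ := hx
      obtain ⟨v', -, h⟩ := hx'
      apply hne
      have := congrArg Fin.tail h
      simpa using this.symm

lemma TF_mono : ∀ (n : ℕ) {A B : Finset (Fin n → G)}, A ⊆ B → TF n A ⊆ TF n B := by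
  intro n
  induction n with
  | zero =>
    intro A B h x hx
    rw [mem_TF_zero] at hx ⊢
    exact hx.mono h
  | succ n ih =>
    intro A B h x hx
    rw [mem_TF_succ] at hx ⊢
    refine hx.trans_le (card_le_card ?_)
    intro z hz
    rw [mem_filter] at hz ⊢
    exact ⟨fst_mono h hz.1, ih (fib_mono h z) hz.2⟩

lemma TF_down : ∀ (n : ℕ) (A : Finset (Fin n → G)), ∀ x ∈ TF n A, ∀ y ≤ x, y ∈ TF n A := by
  intro n
  induction n with
  | zero =>
    intro A x hx y _
    rw [mem_TF_zero] at hx ⊢
    exact hx
  | succ n ih =>
    intro A x hx y hy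
    rw [mem_TF_succ] at hx ⊢
    refine (hy 0).trans_lt (hx.trans_le (card_le_card ?_))
    intro z hz
    rw [mem_filter] at hz ⊢
    exact ⟨hz.1, ih _ _ hz.2 _ (fun i => hy i.succ)⟩

section add

variable [AddCommGroup G]

lemma fib_add {n : ℕ} (A B : Finset (Fin (n + 1) → G)) (s t : G) :
    fib A s + fib B t ⊆ fib (A + B) (s + t) := by
  intro w hw
  rw [mem_add] at hw
  obtain ⟨a, ha, b, hb, rfl⟩ := hw
  rw [mem_fib] at ha hb ⊢
  have := add_mem_add ha hb
  convert this using 1
  funext i
  refine Fin.cases ?_ (fun j => ?_) i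
  · simp
  · simp

lemma fst_add {n : ℕ} (A B : Finset (Fin (n + 1) → G)) {s t : G} (hs : s ∈ fst A)
    (ht : t ∈ fst B) : s + t ∈ fst (A + B) := by
  unfold fst at *
  rw [mem_image] at *
  obtain ⟨a, ha, rfl⟩ := hs
  obtain ⟨b, hb, rfl⟩ := ht
  exact ⟨a + b, add_mem_add ha hb, rfl⟩

/-- `TF A + TF B ⊆ TF (A + B)`, given the Cauchy–Davenport inequality up to size `N` -/
lemma TF_add (N : ℕ) (CD : ∀ S T : Finset G, S.Nonempty → T.Nonempty → (S + T).card ≤ N →
      S.card + T.card ≤ (S + T).card + 1) :
    ∀ (n : ℕ) (A B : Finset (Fin n → G)), (A + B).card ≤ N →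
      ∀ x ∈ TF n A, ∀ y ∈ TF n B, x + y ∈ TF n (A + B) := by
  intro n
  induction n with
  | zero =>
    intro A B _ x hx y hy
    rw [mem_TF_zero] at hx hy ⊢
    exact hx.add hy
  | succ n ih =>
    intro A B hN x hx y hy
    rw [mem_TF_succ] at hx hy ⊢
    set S := (fst A).filter (fun z => Fin.tail x ∈ TF n (fib A z)) with hS
    set T := (fst B).filter (fun z => Fin.tail y ∈ TF n (fib B z)) with hT
    have hST : S + T ⊆ (fst (A + B)).filter
        (fun z => Fin.tail (x + y) ∈ TF n (fib (A + B) z)) := by
      intro z hz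
      rw [mem_add] at hz
      obtain ⟨s, hs, t, ht, rfl⟩ := hz
      rw [hS, mem_filter] at hs
      rw [hT, mem_filter] at ht
      rw [mem_filter]
      refine ⟨fst_add A B hs.1 ht.1, ?_⟩
      have hle : (fib A s + fib B t).card ≤ N := by
        refine (card_le_card (fib_add A B s t)).trans (le_trans ?_ hN)
        rw [card_fib]
        exact card_filter_le _ _
      exact TF_mono n (fib_add A B s t) (ih _ _ hle _ hs.2 _ ht.2)
    have hcard : (S + T).card ≤ N := by
      refine (card_le_card hST).trans (le_trans (card_filter_le _ _) (le_trans ?_ hN))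
      exact card_image_le
    have h1 := CD S T (card_pos.1 (by omega)) (card_pos.1 (by omega)) hcard
    have h2 := card_le_card hST
    simp only [Pi.add_apply]
    omega

end add

/-- the points of `TF A` give uniformly branching subsets of `A` -/
lemma TF_branch : ∀ (n : ℕ) (A : Finset (Fin n → G)), ∀ x ∈ TF n A, ∃ B ⊆ A,
    B.card = ∏ i, (x i + 1) ∧ ∀ i, ∀ y ∈ B,
      ((B.filter (fun z => ∀ j < i, z j = y j)).image (fun z => z i)).card = x i + 1 := by
  intro n
  induction n with
  | zero =>
    intro A x hx
    rw [mem_TF_zero] at hx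
    refine ⟨A, Subset.refl _, ?_, fun i => i.elim0⟩
    have h1 : A.card ≤ 1 := card_le_one_of_subsingleton A
    have h2 := hx.card_pos
    simp
    omega
  | succ n ih =>
    intro A x hx
    rw [mem_TF_succ] at hx
    obtain ⟨S, hS, hSc⟩ := exists_subset_card_eq (Nat.succ_le_of_lt hx)
    have hex : ∀ z : G, ∃ B : Finset (Fin n → G), z ∈ S → B ⊆ fib A z ∧
        B.card = ∏ i, (Fin.tail x i + 1) ∧ ∀ i, ∀ y ∈ B,
        ((B.filter (fun z => ∀ j < i, z j = y j)).image (fun z => z i)).card =
          Fin.tail x i + 1 := by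
      intro z
      by_cases hz : z ∈ S
      · have := hS hz
        rw [mem_filter] at this
        obtain ⟨B, hB, h1, h2⟩ := ih (fib A z) (Fin.tail x) this.2
        exact ⟨B, fun _ => ⟨hB, h1, h2⟩⟩
      · exact ⟨∅, fun h => absurd h hz⟩
    choose Bz hBz using hex
    have hmem : ∀ w : Fin (n + 1) → G, w ∈ S.biUnion (fun z => (Bz z).image
        (fun b => (Fin.cons z b : Fin (n + 1) → G))) ↔ w 0 ∈ S ∧ Fin.tail w ∈ Bz (w 0) := by
      intro w
      simp only [mem_biUnion, mem_image]
      constructor
      · rintro ⟨z, hz, b, hb, rfl⟩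
        simp only [Fin.cons_zero, Fin.tail_cons]
        exact ⟨hz, hb⟩
      · rintro ⟨h1, h2⟩
        exact ⟨w 0, h1, Fin.tail w, h2, Fin.cons_self_tail w⟩
    refine ⟨S.biUnion (fun z => (Bz z).image (fun b => (Fin.cons z b : Fin (n + 1) → G))),
      ?_, ?_, ?_⟩
    · intro w hw
      rw [hmem] at hw
      have := (hBz (w 0) hw.1).1 hw.2
      rw [mem_fib, Fin.cons_self_tail] at this
      exact this
    · rw [card_biUnion]
      · have e1 : ∀ z ∈ S, ((Bz z).image (fun b => (Fin.cons z b : Fin (n + 1) → G))).card =
            ∏ i, (Fin.tail x i + 1) := by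
          intro z hz
          rw [card_image_of_injective, (hBz z hz).2.1]
          intro a b hab
          have := congrArg Fin.tail hab
          simpa using this
        rw [sum_congr rfl e1, sum_const, hSc, Fin.prod_univ_succ, smul_eq_mul]
        rfl
      · intro z _ z' _ hne
        rw [Function.onFun, disjoint_left]
        intro w hw hw'
        rw [mem_image] at hw hw'
        obtain ⟨b, -, rfl⟩ := hw
        obtain ⟨b', -, h⟩ := hw'
        apply hne
        have := congrFun h 0
        simpa using this.symm
    · intro i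
      refine Fin.cases ?_ (fun j => ?_) i
      · intro y _
        have : ((S.biUnion (fun z => (Bz z).image (fun b =>
            (Fin.cons z b : Fin (n + 1) → G)))).filter
            (fun z => ∀ j < (0 : Fin (n + 1)), z j = y j)).image (fun z => z 0) = S := by
          ext z
          rw [mem_image]
          constructor
          · rintro ⟨w, hw, rfl⟩
            rw [mem_filter, hmem] at hw
            exact hw.1.1
          · intro hz
            have hpos : 0 < (Bz z).card := by
              rw [(hBz z hz).2.1]
              exact Finset.prod_pos fun _ _ => Nat.succ_pos _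
            obtain ⟨b, hb⟩ := card_pos.1 hpos
            refine ⟨Fin.cons z b, ?_, by simp⟩
            rw [mem_filter, hmem]
            simp only [Fin.cons_zero, Fin.tail_cons]
            exact ⟨⟨hz, hb⟩, fun j hj => absurd hj (Fin.not_lt_zero j)⟩
        rw [this, hSc]
      · intro y hy
        rw [hmem] at hy
        have h2 := (hBz (y 0) hy.1).2.2 j (Fin.tail y) hy.2
        have : ((S.biUnion (fun z => (Bz z).image (fun b =>
            (Fin.cons z b : Fin (n + 1) → G)))).filter
            (fun z => ∀ k < j.succ, z k = y k)).image (fun z => z j.succ) =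
            ((Bz (y 0)).filter (fun z => ∀ k < j, z k = Fin.tail y k)).image
              (fun z => z j) := by
          ext v
          rw [mem_image, mem_image]
          constructor
          · rintro ⟨w, hw, rfl⟩
            rw [mem_filter, hmem] at hw
            obtain ⟨⟨h3, h4⟩, h5⟩ := hw
            have h6 : w 0 = y 0 := h5 0 (Fin.succ_pos j)
            refine ⟨Fin.tail w, ?_, rfl⟩
            rw [mem_filter, ← h6]
            exact ⟨h4, fun k hk => h5 k.succ (Fin.succ_lt_succ_iff.2 hk)⟩
          · rintro ⟨b, hb, rfl⟩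
            rw [mem_filter] at hb
            refine ⟨Fin.cons (y 0) b, ?_, by simp⟩
            rw [mem_filter, hmem]
            simp only [Fin.cons_zero, Fin.tail_cons]
            refine ⟨⟨hy.1, hb.1⟩, ?_⟩
            intro k
            refine Fin.cases ?_ (fun l => ?_) k
            · intro _; simp
            · intro hl
              rw [Fin.cons_succ]
              exact hb.2 l (Fin.succ_lt_succ_iff.1 hl)
        rw [this, h2]
        rfl

end Pool.Agent.Y559.DS
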