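import Pool.Agent.H947R2.DS.A
import Pool.Agent.H947R2.DS.One
import Pool.Agent.Y559.DS.Tree

/-! Uniformly branching subsets of sets with small doubling in `G ^ n`. -/

set_option autoImplicit false

namespace Pool.Agent.Y559.DS

open Finset
open scoped Pointwise

/-- the support -/
def supp {n : ℕ} (x : Fin n → ℕ) : Finset (Fin n) := univ.filter (fun i => x i ≠ 0)

lemma mem_supp {n : ℕ} {x : Fin n → ℕ} {i : Fin n} : i ∈ supp x ↔ x i ≠ 0 := by simp [supp]

lemma sum_two_pow {n : ℕ} (D D2 : Finset (Fin n → ℕ)) (hdown : ∀ x ∈ D, ∀ y ≤ x, y ∈ D)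
    (h2 : ∀ x ∈ D, ∀ y ∈ D, x + y ∈ D2) : ∑ x ∈ D, 2 ^ (supp x).card ≤ D2.card := by
  have e : ∑ x ∈ D, 2 ^ (supp x).card = (D.sigma (fun x => (supp x).powerset)).card := by
    rw [card_sigma]
    apply sum_congr rfl
    intro x _
    rw [card_powerset]
  rw [e]
  refine card_le_card_of_injOn
    (fun p => p.1 + fun i => if i ∈ p.2 then p.1 i - 1 else p.1 i) ?_ ?_
  · rintro ⟨x, S⟩ hp
    rw [mem_coe, mem_sigma] at hp
    refine h2 x hp.1 _ (hdown x hp.1 _ ?_)
    intro i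
    simp only
    split_ifs <;> omega
  · rintro ⟨x, S⟩ hp ⟨x', S'⟩ hp' h
    rw [mem_coe, mem_sigma, mem_powerset] at hp hp'
    simp only at h hp hp'
    have key : ∀ i, x i = x' i ∧ (i ∈ S ↔ i ∈ S') := by
      intro i
      have h1 := congrFun h i
      simp only [Pi.add_apply] at h1
      have h3 : i ∈ S → x i ≠ 0 := fun hi => mem_supp.1 (hp.2 hi)
      have h4 : i ∈ S' → x' i ≠ 0 := fun hi => mem_supp.1 (hp'.2 hi)
      by_cases ha : i ∈ S <;> by_cases hb : i ∈ S' <;>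
        simp only [ha, hb, if_true, if_false, forall_const, iff_true, iff_false, not_true_eq_false,
          and_false, and_true, iff_self] at h1 h3 h4 ⊢ <;> omega
    have hx : x = x' := funext fun i => (key i).1
    subst hx
    have hS : S = S' := by ext i; exact (key i).2
    rw [hS]

/-- a down-set of small doubling contains a large box with a small support -/
theorem core {n : ℕ} (D D2 : Finset (Fin n → ℕ)) (K : ℝ) (hK : 1 ≤ K) (hne : D.Nonempty)
    (hdown : ∀ x ∈ D, ∀ y ≤ x, y ∈ D)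
    (h2 : ∀ x ∈ D, ∀ y ∈ D, x + y ∈ D2) (c2 : (D2.card : ℝ) ≤ K * D.card) :
    ∃ x ∈ D, (2 : ℝ) ^ (supp x).card ≤ 2 * K ∧
      (D.card : ℝ) ≤ 64 * K ^ 5 * ∏ i, ((x i : ℝ) + 1) := by
  have hK0 : 0 < K := by linarith
  have hD0 : (0 : ℝ) < D.card := by exact_mod_cast hne.card_pos
  obtain ⟨D', hD'⟩ : ∃ D', D' = D.filter (fun x => (2 : ℝ) ^ (supp x).card ≤ 2 * K) := ⟨_, rfl⟩
  have hbig : (D.card : ℝ) ≤ 2 * D'.card := by
    have h3 : ∑ x ∈ D, (2 : ℝ) ^ (supp x).card ≤ D2.card := by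
      exact_mod_cast sum_two_pow D D2 hdown h2
    have h4 : ∑ x ∈ D.filter (fun x => ¬ (2 : ℝ) ^ (supp x).card ≤ 2 * K), (2 * K) ≤
        ∑ x ∈ D.filter (fun x => ¬ (2 : ℝ) ^ (supp x).card ≤ 2 * K), (2 : ℝ) ^ (supp x).card := by
      apply sum_le_sum
      intro x hx
      rw [mem_filter, not_le] at hx
      exact hx.2.le
    have h5 : ∑ x ∈ D.filter (fun x => ¬ (2 : ℝ) ^ (supp x).card ≤ 2 * K),
        (2 : ℝ) ^ (supp x).card ≤ ∑ x ∈ D, (2 : ℝ) ^ (supp x).card :=
      sum_le_sum_of_subset_of_nonneg (filter_subset _ _) (fun _ _ _ => by positivity)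
    rw [sum_const, nsmul_eq_mul] at h4
    have h6 := card_filter_add_card_filter_not (s := D)
      (fun x => (2 : ℝ) ^ (supp x).card ≤ 2 * K)
    rw [← hD'] at h6
    have h7 : (D'.card : ℝ) + (D.filter (fun x => ¬ (2 : ℝ) ^ (supp x).card ≤ 2 * K)).card =
        D.card := by exact_mod_cast h6
    have h8 : K * (2 * (D.filter (fun x => ¬ (2 : ℝ) ^ (supp x).card ≤ 2 * K)).card) ≤
        K * D.card := by linarith
    have h9 := le_of_mul_le_mul_left h8 hK0
    linarith
  have hD'0 : (0 : ℝ) < D'.card := by linarith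
  have hD'ne : D'.Nonempty := by
    rw [← card_pos]; exact_mod_cast hD'0
  obtain ⟨x, hx, hmax⟩ := exists_max_image D' (fun x => ∏ i, ((x i : ℝ) + 1)) hD'ne
  have hA := H947DS.A_proof (H947DS.ONE_proof H947DS.W_proof) n D' D' _ _ hD'ne hD'ne hmax hmax
  set F := ∏ i, ((x i : ℝ) + 1) with hF
  have hF0 : 0 < F := by rw [hF]; positivity
  rw [Real.sqrt_mul_self hF0.le] at hA
  have hsum : (D'.card : ℝ) * (1 / (4 * K ^ 2)) ≤
      ∑ x ∈ D', (1 / 4 : ℝ) ^ (H947DS.nz x) := by
    rw [← nsmul_eq_mul, ← sum_const]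
    apply sum_le_sum
    intro y hy
    rw [hD', mem_filter] at hy
    have h10 : H947DS.nz y = (supp y).card := rfl
    rw [h10]
    have h11 : (4 : ℝ) ^ (supp y).card ≤ 4 * K ^ 2 := by
      calc (4 : ℝ) ^ (supp y).card = (2 ^ (supp y).card) * (2 ^ (supp y).card) := by
            rw [← mul_pow]; norm_num
        _ ≤ (2 * K) * (2 * K) := mul_le_mul hy.2 hy.2 (by positivity) (by positivity)
        _ = 4 * K ^ 2 := by ring
    rw [one_div_pow]
    exact one_div_le_one_div_of_le (by positivity) h11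
  have hDD : ((D' + D').card : ℝ) ≤ K * D.card := by
    refine le_trans ?_ c2
    have : D' + D' ⊆ D2 := by
      intro z hz
      rw [mem_add] at hz
      obtain ⟨a, ha, b, hb, rfl⟩ := hz
      rw [hD', mem_filter] at ha hb
      exact h2 a ha.1 b hb.1
    exact_mod_cast card_le_card this
  refine ⟨x, ?_, ?_, ?_⟩
  · rw [hD', mem_filter] at hx; exact hx.1
  · rw [hD', mem_filter] at hx; exact hx.2
  · have h12 : (D.card : ℝ) / (8 * K ^ 2) ≤ (D'.card : ℝ) * (1 / (4 * K ^ 2)) := by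
      rw [mul_one_div, div_le_div_iff₀ (by positivity) (by positivity)]
      nlinarith [sq_nonneg K, pow_pos hK0 2]
    have h13 : ((D.card : ℝ) / (8 * K ^ 2)) * ((D.card : ℝ) / (8 * K ^ 2)) ≤
        K * D.card * F := by
      have h14 := h12.trans hsum
      calc ((D.card : ℝ) / (8 * K ^ 2)) * ((D.card : ℝ) / (8 * K ^ 2))
          ≤ (∑ x ∈ D', (1 / 4 : ℝ) ^ (H947DS.nz x)) * (∑ x ∈ D', (1 / 4 : ℝ) ^ (H947DS.nz x)) :=
            mul_le_mul h14 h14 (by positivity) (h14.trans' (by positivity))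
        _ ≤ ((D' + D').card : ℝ) * F := hA
        _ ≤ K * D.card * F := by gcongr
    have h15 : (D.card : ℝ) * D.card ≤ D.card * (64 * K ^ 5 * F) := by
      have h16 : ((D.card : ℝ) / (8 * K ^ 2)) * ((D.card : ℝ) / (8 * K ^ 2)) * (64 * K ^ 4) =
          (D.card : ℝ) * D.card := by
        field_simp
        ring
      rw [← h16]
      calc ((D.card : ℝ) / (8 * K ^ 2)) * ((D.card : ℝ) / (8 * K ^ 2)) * (64 * K ^ 4)
          ≤ (K * D.card * F) * (64 * K ^ 4) := by gcongr
        _ = D.card * (64 * K ^ 5 * F) := by ring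
    exact le_of_mul_le_mul_left h15 hD0

/-- the Cauchy–Davenport inequality up to the size `N` -/
lemma cd {G : Type*} [AddCommGroup G] [DecidableEq G] (N : ℕ)
    (hN : ∀ g : G, g ≠ 0 → ∀ k : ℕ, 0 < k → k ≤ N → k • g ≠ 0) :
    ∀ S T : Finset G, S.Nonempty → T.Nonempty → (S + T).card ≤ N →
      S.card + T.card ≤ (S + T).card + 1 := by
  intro S T hS hT hST
  have h := cauchy_davenport_minOrder_add hS hT
  have hm : ((N : ℕ∞)) < AddMonoid.minOrder G := by
    have h2 : ((N + 1 : ℕ) : ℕ∞) ≤ AddMonoid.minOrder G := by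
      rw [AddMonoid.le_minOrder]
      intro a ha hfin
      have h3 : N + 1 ≤ addOrderOf a := by
        by_contra hcon
        push Not at hcon
        exact hN a ha (addOrderOf a) hfin.addOrderOf_pos (by omega) (addOrderOf_nsmul_eq_zero a)
      exact_mod_cast h3
    refine lt_of_lt_of_le ?_ h2
    exact_mod_cast Nat.lt_succ_self N
  rcases min_le_iff.1 h with h1 | h1
  · exfalso
    have h4 : ((S + T).card : ℕ∞) ≤ N := by exact_mod_cast hST
    exact absurd (lt_of_lt_of_le hm (h1.trans h4)) (lt_irrefl _)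
  · have h5 : S.card + T.card - 1 ≤ (S + T).card := by exact_mod_cast h1
    omega

/-- Sets of small doubling in `G ^ n` contain large uniformly branching sets with few
branching coordinates. -/
theorem branching {n : ℕ} {G : Type*} [AddCommGroup G] [DecidableEq G] (K : ℝ)
    (A : Finset (Fin n → G)) (hA : A.Nonempty) (hK : ((A + A).card : ℝ) ≤ K * A.card)
    (hG : ∀ g : G, g ≠ 0 → ∀ k : ℕ, 0 < k → k ≤ (A + A).card → k • g ≠ 0) :
    ∃ (x : Fin n → ℕ) (B F : Finset (Fin n → G)), B ⊆ A ∧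
      (2 : ℝ) ^ (univ.filter (fun i => x i ≠ 0)).card ≤ 2 * K ∧
      (A.card : ℝ) ≤ 64 * K ^ 5 * B.card ∧
      B.card = ∏ i, (x i + 1) ∧
      (∀ i, ∀ y ∈ B, ((B.filter (fun z => ∀ j < i, z j = y j)).image (fun z => z i)).card =
        x i + 1) ∧
      F ⊆ A ∧ (F.card : ℝ) ≤ 64 * K ^ 6 ∧ A ⊆ F + (B - B) := by
  have hK1 : 1 ≤ K := by
    have hA0 : (0 : ℝ) < A.card := by exact_mod_cast hA.card_pos
    have hAA : (A.card : ℝ) ≤ (A + A).card := by
      exact_mod_cast card_le_card_add_left hA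
    by_contra h
    push Not at h
    nlinarith
  have CD := cd (A + A).card hG
  obtain ⟨x, hx, hs, hv⟩ := core (TF n A) (TF n (A + A)) K hK1
    (by rw [← card_pos, card_TF]; exact hA.card_pos)
    (TF_down n A)
    (fun x hx y hy => TF_add _ CD n A A le_rfl x hx y hy)
    (by rw [card_TF, card_TF]; exact hK)
  rw [card_TF] at hv
  obtain ⟨B, hBA, hBc, hBb⟩ := TF_branch n A x hx
  have hBv : (A.card : ℝ) ≤ 64 * K ^ 5 * B.card := by
    rw [hBc]
    push_cast
    exact hv
  have hBne : B.Nonempty := by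
    rw [← card_pos, hBc]
    exact Finset.prod_pos fun _ _ => Nat.succ_pos _
  have hcov : ((A + B).card : ℝ) ≤ 64 * K ^ 6 * B.card := by
    have h1 : ((A + B).card : ℝ) ≤ (A + A).card := by
      exact_mod_cast card_le_card (add_subset_add_left hBA)
    calc ((A + B).card : ℝ) ≤ K * A.card := h1.trans hK
      _ ≤ K * (64 * K ^ 5 * B.card) := by gcongr
      _ = 64 * K ^ 6 * B.card := by ring
  obtain ⟨F, hFA, hFc, hF⟩ := ruzsa_covering_add hBne hcov
  exact ⟨x, B, F, hBA, hs, hBv, hBc, hBb, hFA, hFc, hF⟩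

end Pool.Agent.Y559.DS
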